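import Pool.Agent.Helper84.OV.Zero

/-!
# Project OV, packet FPR
-/

set_option autoImplicit false

namespace Pool.Agent.Helper27.OV.FPR

open Pool.Agent.Helper84.OV
open Finset

/-- numerators -/
noncomputable def nu : Fin 3 → R2 := ![1, XX - YY, YY - XX]

/-- denominators -/
noncomputable def de : Fin 3 → R2 := ![1, XX * (1 - YY), YY * (1 - XX)]

/-- constants -/
def al (p q : ℤ) : Fin 3 → ℤ := ![1, p * (1 - q), q * (1 - p)]

/-- constants -/
def be (p q : ℤ) : Fin 3 → ℤ := ![1, p - q, q - p]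

/-- the factors -/
noncomputable def ds (uh vh : PowerSeries ℚ) : Fin 3 → PowerSeries ℚ := ![1, uh, vh]

lemma ff_eq (Ψ : R2 →+* PowerSeries ℚ) (uh vh : PowerSeries ℚ) (B : Fin 3 → R2) (i : Fin 3) :
    ff Ψ uh vh B i = ds uh vh i * Ψ (B i) := by
  fin_cases i <;> simp [ff, ds]

lemma rel {G : R2} {p q : ℤ} {Ψ : R2 →+* PowerSeries ℚ} {uh vh : PowerSeries ℚ}
    (h : UV G p q Ψ uh vh) (i : Fin 3) :
    ds uh vh i ^ 2 * Ψ (de i) * (be p q i : PowerSeries ℚ) =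
      Ψ (nu i) * (al p q i : PowerSeries ℚ) := by
  fin_cases i
  · simp [ds, de, nu, al, be]
  · exact h.u2
  · exact h.v2

lemma ds_ne {G : R2} {p q : ℤ} {Ψ : R2 →+* PowerSeries ℚ} {uh vh : PowerSeries ℚ}
    (h : UV G p q Ψ uh vh) (i : Fin 3) : ds uh vh i ≠ 0 := by
  fin_cases i
  · simp [ds]
  · intro h0
    have h0' : uh = 0 := h0
    have := h.u0
    rw [h0'] at this
    simp at this
  · intro h0
    have h0' : vh = 0 := h0
    have := h.v0
    rw [h0'] at this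
    simp at this

lemma al_ne {p q : ℤ} (hp : 2 ≤ p) (hpq : p < q) (i : Fin 3) : al p q i ≠ 0 := by
  fin_cases i
  · simp [al]
  · change p * (1 - q) ≠ 0
    exact mul_ne_zero (by omega) (by omega)
  · change q * (1 - p) ≠ 0
    exact mul_ne_zero (by omega) (by omega)

lemma be_ne {p q : ℤ} (hpq : p < q) (i : Fin 3) : be p q i ≠ 0 := by
  fin_cases i
  · simp [be]
  · change p - q ≠ 0
    omega
  · change q - p ≠ 0
    omega

lemma al_le {p q : ℤ} (hp : 2 ≤ p) (hpq : p < q) (i : Fin 3) : |al p q i| ≤ q ^ 2 := by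
  fin_cases i
  · change |(1 : ℤ)| ≤ q ^ 2
    rw [abs_one]
    nlinarith
  · change |p * (1 - q)| ≤ q ^ 2
    rw [abs_le]
    constructor <;> nlinarith
  · change |q * (1 - p)| ≤ q ^ 2
    rw [abs_le]
    constructor <;> nlinarith

lemma be_le {p q : ℤ} (hp : 2 ≤ p) (hpq : p < q) (i : Fin 3) : |be p q i| ≤ q := by
  fin_cases i
  · change |(1 : ℤ)| ≤ q
    rw [abs_one]
    omega
  · change |p - q| ≤ q
    rw [abs_le]
    constructor <;> omega
  · change |q - p| ≤ q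
    rw [abs_le]
    constructor <;> omega

lemma ev_nu {p q : ℤ} (hpq : p < q) (i : Fin 3) : ev p q (nu i) ≠ 0 := by
  fin_cases i
  · simp [nu]
  · change ev p q (XX - YY) ≠ 0
    rw [map_sub, ev_XX, ev_YY]
    omega
  · change ev p q (YY - XX) ≠ 0
    rw [map_sub, ev_XX, ev_YY]
    omega

lemma ev_de {p q : ℤ} (hp : 2 ≤ p) (hpq : p < q) (i : Fin 3) : ev p q (de i) ≠ 0 := by
  fin_cases i
  · simp [de]
  · change ev p q (XX * (1 - YY)) ≠ 0
    rw [map_mul, map_sub, map_one, ev_XX, ev_YY]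
    exact mul_ne_zero (by omega) (by omega)
  · change ev p q (YY * (1 - XX)) ≠ 0
    rw [map_mul, map_sub, map_one, ev_XX, ev_YY]
    exact mul_ne_zero (by omega) (by omega)

lemma deg_XX : (XX : R2).natDegree = 0 := by
  unfold XX
  exact Polynomial.natDegree_C _

lemma deg_YY : (YY : R2).natDegree ≤ 1 := by
  unfold YY
  exact Polynomial.natDegree_X_le

lemma deg_nu (i : Fin 3) : (nu i).natDegree ≤ 1 := by
  fin_cases i
  · simp [nu]
  · change (XX - YY).natDegree ≤ 1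
    refine (Polynomial.natDegree_sub_le _ _).trans (max_le ?_ deg_YY)
    rw [deg_XX]; omega
  · change (YY - XX).natDegree ≤ 1
    refine (Polynomial.natDegree_sub_le _ _).trans (max_le deg_YY ?_)
    rw [deg_XX]; omega

lemma deg_de (i : Fin 3) : (de i).natDegree ≤ 1 := by
  fin_cases i
  · simp [de]
  · change (XX * (1 - YY)).natDegree ≤ 1
    refine (Polynomial.natDegree_mul_le).trans ?_
    have h1 : ((1 : R2) - YY).natDegree ≤ 1 :=
      (Polynomial.natDegree_sub_le _ _).trans (max_le (by simp) deg_YY)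
    rw [deg_XX]; omega
  · change (YY * (1 - XX)).natDegree ≤ 1
    refine (Polynomial.natDegree_mul_le).trans ?_
    have h1 : ((1 : R2) - XX).natDegree ≤ 0 :=
      (Polynomial.natDegree_sub_le _ _).trans (max_le (by simp) (by rw [deg_XX]))
    have h2 := deg_YY
    omega

lemma nrm_nu (i : Fin 3) : nrm (nu i) ≤ 2 := by
  fin_cases i
  · change nrm 1 ≤ 2
    rw [nrm_one]; omega
  · change nrm (XX - YY) ≤ 2
    refine (nrm_sub _ _).trans ?_
    rw [nrm_XX, nrm_YY]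
  · change nrm (YY - XX) ≤ 2
    refine (nrm_sub _ _).trans ?_
    rw [nrm_XX, nrm_YY]

lemma nrm_de (i : Fin 3) : nrm (de i) ≤ 2 := by
  fin_cases i
  · change nrm 1 ≤ 2
    rw [nrm_one]; omega
  · change nrm (XX * (1 - YY)) ≤ 2
    refine (nrm_mul _ _).trans ?_
    have := nrm_sub 1 YY
    rw [nrm_one, nrm_YY] at this
    rw [nrm_XX]; omega
  · change nrm (YY * (1 - XX)) ≤ 2
    refine (nrm_mul _ _).trans ?_
    have := nrm_sub 1 XX
    rw [nrm_one, nrm_XX] at this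
    rw [nrm_YY]; omega

lemma nrm_prod {B1 B2 B3 : R2} {H : ℕ} (h1 : nrm B1 ≤ 2) (h2 : nrm B2 ≤ 2) (h3 : nrm B3 ≤ H) :
    nrm (B1 * B2 * B3 ^ 2) ≤ 4 * H ^ 2 := by
  calc nrm (B1 * B2 * B3 ^ 2) ≤ nrm (B1 * B2) * nrm (B3 ^ 2) := nrm_mul _ _
    _ ≤ (nrm B1 * nrm B2) * nrm B3 ^ 2 := Nat.mul_le_mul (nrm_mul _ _) (nrm_pow _ _)
    _ ≤ (2 * 2) * H ^ 2 := by gcongr
    _ = 4 * H ^ 2 := by ring

lemma deg_prod {B1 B2 B3 : R2} {n : ℕ} (h1 : B1.natDegree ≤ 1) (h2 : B2.natDegree ≤ 1)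
    (h3 : B3.natDegree ≤ n) : (B1 * B2 * B3 ^ 2).natDegree ≤ 2 * n + 2 := by
  have e1 := Polynomial.natDegree_mul_le (p := B1 * B2) (q := B3 ^ 2)
  have e2 := Polynomial.natDegree_mul_le (p := B1) (q := B2)
  have e3 := Polynomial.natDegree_pow_le (p := B3) (n := 2)
  omega

lemma not_dvd_of_ev {G S : R2} {p q : ℤ} (hG : ev p q G = 0) (hS : ev p q S ≠ 0) : ¬ G ∣ S := by
  rintro ⟨T, rfl⟩
  rw [map_mul, hG, zero_mul] at hS
  exact hS rfl

/-- the arithmetic of one index -/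
lemma core {G S1 S2 : R2} (hG : Irreducible G) (hd : 1 ≤ G.natDegree) {n : ℕ}
    (hCHT : S_CHT) (h1 : S1.natDegree ≤ 2 * n + 2) (h2 : S2.natDegree ≤ 2 * n + 2) {x y A A' : ℤ}
    (hxy : IsCoprime x y) (hx : x ≠ 0) (hy : y ≠ 0) (hA : A ≠ 0) (hA' : A' ≠ 0) {Q : ℤ} {H : ℕ}
    (hAQ : |A| ≤ Q) (hAQ' : |A'| ≤ Q) (hS1 : nrm S1 ≤ 4 * H ^ 2) (hS2 : nrm S2 ≤ 4 * H ^ 2)
    (hnd : ¬ G ∣ S2) (hdvd : G ∣ ((y ^ 2 * A : ℤ) : R2) * S1 - ((x ^ 2 * A' : ℤ) : R2) * S2) :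
    x ^ 2 ≤ Q ^ 2 * (4 * (H : ℤ) ^ 2 * (2 * nrm G) ^ (2 * n + 3)) ∧
    y ^ 2 ≤ Q ^ 2 * (4 * (H : ℤ) ^ 2 * (2 * nrm G) ^ (2 * n + 3)) := by
  have hX : x ^ 2 * A' ≠ 0 := mul_ne_zero (pow_ne_zero _ hx) hA'
  have hY : y ^ 2 * A ≠ 0 := mul_ne_zero (pow_ne_zero _ hy) hA
  set g : ℤ := (Int.gcd (x ^ 2 * A') (y ^ 2 * A) : ℤ) with hg
  have hg0 : g ≠ 0 := by
    rw [hg]
    exact_mod_cast (Int.gcd_pos_of_ne_zero_left _ hX).ne'
  have hgpos : 0 < g := lt_of_le_of_ne (by rw [hg]; exact Int.natCast_nonneg _) (Ne.symm hg0)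
  obtain ⟨a, ha⟩ : g ∣ x ^ 2 * A' := Int.gcd_dvd_left ..
  obtain ⟨b, hb⟩ : g ∣ y ^ 2 * A := Int.gcd_dvd_right ..
  have hab : IsCoprime a b := by
    have h3 := Int.gcd_eq_gcd_ab (x ^ 2 * A') (y ^ 2 * A)
    refine ⟨Int.gcdA (x ^ 2 * A') (y ^ 2 * A), Int.gcdB (x ^ 2 * A') (y ^ 2 * A), ?_⟩
    have h4 : g = x ^ 2 * A' * Int.gcdA (x ^ 2 * A') (y ^ 2 * A) +
      y ^ 2 * A * Int.gcdB (x ^ 2 * A') (y ^ 2 * A) := h3
    have h5 : g * (Int.gcdA (x ^ 2 * A') (y ^ 2 * A) * a +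
        Int.gcdB (x ^ 2 * A') (y ^ 2 * A) * b) = g * 1 := by
      calc g * (Int.gcdA (x ^ 2 * A') (y ^ 2 * A) * a +
        Int.gcdB (x ^ 2 * A') (y ^ 2 * A) * b) = (g * a) * Int.gcdA (x ^ 2 * A') (y ^ 2 * A) +
          (g * b) * Int.gcdB (x ^ 2 * A') (y ^ 2 * A) := by ring
        _ = g * 1 := by rw [← ha, ← hb, ← h4, mul_one]
    exact mul_left_cancel₀ hg0 h5
  have ha0 : a ≠ 0 := by
    rintro rfl
    rw [mul_zero] at ha
    exact hX ha
  have hb0 : b ≠ 0 := by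
    rintro rfl
    rw [mul_zero] at hb
    exact hY hb
  have hgAA : g ∣ A * A' := by
    have c1 : g ∣ x ^ 2 * (A * A') := ⟨a * A, by linear_combination A * ha⟩
    have c2 : g ∣ y ^ 2 * (A * A') := ⟨b * A', by linear_combination A' * hb⟩
    obtain ⟨u, v, huv⟩ : IsCoprime (x ^ 2) (y ^ 2) := IsCoprime.pow hxy
    have c3 : A * A' = u * (x ^ 2 * (A * A')) + v * (y ^ 2 * (A * A')) := by
      calc A * A' = (u * x ^ 2 + v * y ^ 2) * (A * A') := by rw [huv, one_mul]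
        _ = _ := by ring
    rw [c3]
    exact dvd_add (dvd_mul_of_dvd_right c1 _) (dvd_mul_of_dvd_right c2 _)
  have hQ0 : 0 ≤ Q := (abs_nonneg _).trans hAQ
  have hgQ : g ≤ Q ^ 2 := by
    have c1 : g ≤ |A * A'| := Int.le_of_dvd (abs_pos.2 (mul_ne_zero hA hA')) ((dvd_abs _ _).2 hgAA)
    rw [abs_mul] at c1
    have c2 : |A| * |A'| ≤ Q * Q := mul_le_mul hAQ hAQ' (abs_nonneg _) hQ0
    nlinarith
  have hprime : Prime G := hG.prime
  have hgd : G ∣ (b : R2) * S1 - (a : R2) * S2 := by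
    have e : ((y ^ 2 * A : ℤ) : R2) * S1 - ((x ^ 2 * A' : ℤ) : R2) * S2 =
        (g : R2) * ((b : R2) * S1 - (a : R2) * S2) := by
      rw [hb, ha]
      push_cast
      ring
    rw [e] at hdvd
    rcases hprime.dvd_or_dvd hdvd with h | h
    · exfalso
      obtain ⟨T, hT⟩ := h
      have h6 : ((g : ℤ) : R2) ≠ 0 := by
        simpa using hg0
      have hT0 : T ≠ 0 := by
        rintro rfl
        rw [mul_zero] at hT
        exact h6 hT
      have h7 := congrArg Polynomial.natDegree hT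
      rw [Polynomial.natDegree_mul hG.ne_zero hT0, Polynomial.natDegree_intCast] at h7
      omega
    · exact h
  obtain ⟨k1, k2⟩ := hCHT G S1 S2 a b (2 * n + 2) hG hd h1 h2 hab ha0 hb0 hnd hgd
  have e3 : 2 * n + 2 + 1 = 2 * n + 3 := rfl
  rw [e3] at k1 k2
  have m1 : |a| ≤ 4 * (H : ℤ) ^ 2 * (2 * nrm G) ^ (2 * n + 3) := by
    have : a.natAbs ≤ 4 * H ^ 2 * (2 * nrm G) ^ (2 * n + 3) :=
      k1.trans (Nat.mul_le_mul_right _ hS1)
    rw [Int.abs_eq_natAbs]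
    exact_mod_cast this
  have m2 : |b| ≤ 4 * (H : ℤ) ^ 2 * (2 * nrm G) ^ (2 * n + 3) := by
    have : b.natAbs ≤ 4 * H ^ 2 * (2 * nrm G) ^ (2 * n + 3) :=
      k2.trans (Nat.mul_le_mul_right _ hS2)
    rw [Int.abs_eq_natAbs]
    exact_mod_cast this
  have hA1 : 1 ≤ |A| := Int.one_le_abs hA
  have hA1' : 1 ≤ |A'| := Int.one_le_abs hA'
  constructor
  · calc x ^ 2 ≤ x ^ 2 * |A'| := le_mul_of_one_le_right (sq_nonneg _) hA1'
      _ = |x ^ 2 * A'| := by rw [abs_mul, abs_of_nonneg (sq_nonneg x)]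
      _ = g * |a| := by rw [ha, abs_mul, abs_of_pos hgpos]
      _ ≤ Q ^ 2 * (4 * (H : ℤ) ^ 2 * (2 * nrm G) ^ (2 * n + 3)) :=
          mul_le_mul hgQ m1 (abs_nonneg _) (sq_nonneg _)
  · calc y ^ 2 ≤ y ^ 2 * |A| := le_mul_of_one_le_right (sq_nonneg _) hA1
      _ = |y ^ 2 * A| := by rw [abs_mul, abs_of_nonneg (sq_nonneg y)]
      _ = g * |b| := by rw [hb, abs_mul, abs_of_pos hgpos]
      _ ≤ Q ^ 2 * (4 * (H : ℤ) ^ 2 * (2 * nrm G) ^ (2 * n + 3)) :=
          mul_le_mul hgQ m2 (abs_nonneg _) (sq_nonneg _)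

/-- products of three numbers, one of which is `± 1` -/
lemma three {M a b c : ℤ} (h : (a ^ 2 = 1 ∧ b ^ 2 ≤ M ∧ c ^ 2 ≤ M) ∨
    (b ^ 2 = 1 ∧ a ^ 2 ≤ M ∧ c ^ 2 ≤ M) ∨ (c ^ 2 = 1 ∧ a ^ 2 ≤ M ∧ b ^ 2 ≤ M)) :
    (a * b * c) ^ 2 ≤ M ^ 2 := by
  have e : (a * b * c) ^ 2 = a ^ 2 * b ^ 2 * c ^ 2 := by ring
  rw [e]
  have ha := sq_nonneg a
  have hb := sq_nonneg b
  have hc := sq_nonneg c
  rcases h with ⟨h1, h2, h3⟩ | ⟨h1, h2, h3⟩ | ⟨h1, h2, h3⟩
  · rw [h1, one_mul, sq M]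
    exact mul_le_mul h2 h3 hc (hb.trans h2)
  · rw [h1, mul_one, sq M]
    exact mul_le_mul h2 h3 hc (ha.trans h2)
  · rw [h1, mul_one, sq M]
    exact mul_le_mul h2 h3 hb (ha.trans h2)

theorem t : S_FPR := by
  intro hCHT hKer hLD2 hNUV G p q U V n H Ψ uh vh B hBr hUV hG hd hGY hp hpq hUVeq hB hn hH hF hW hsize
  obtain ⟨j, hj⟩ := hB
  have hΨj : Ψ (B j) ≠ 0 := fun h => hj (hKer G p q Ψ hBr hG hd hGY hp _ h)
  have hfj : ff Ψ uh vh B j ≠ 0 := by
    rw [ff_eq]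
    exact mul_ne_zero (ds_ne hUV j) hΨj
  have hev : ev p q G = 0 := by
    have h1 := hBr.ev G
    rw [hBr.zero, map_zero] at h1
    exact_mod_cast h1.symm
  have hr : ∀ i, ∃ c : ℚ, ff Ψ uh vh B i = PowerSeries.C c * ff Ψ uh vh B j := by
    intro i
    refine hLD2 _ _ hfj ?_
    have h1 := hW i j
    unfold w2 at h1
    exact sub_eq_zero.1 h1
  choose r hr using hr
  have hrj : r j = 1 := by
    have h1 := hr j
    have h2 : (PowerSeries.C (r j) - PowerSeries.C 1) * ff Ψ uh vh B j = 0 := by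
      rw [sub_mul, ← h1, map_one, one_mul, sub_self]
    rcases mul_eq_zero.1 h2 with h3 | h3
    · exact PowerSeries.C_injective (sub_eq_zero.1 h3)
    · exact absurd h3 hfj
  have hsum : r 0 + U * r 1 + V * r 2 = 0 := by
    have h1 : PowerSeries.C (r 0 + U * r 1 + V * r 2) * ff Ψ uh vh B j = 0 := by
      rw [map_add, map_add, map_mul, map_mul, add_mul, add_mul, mul_assoc, mul_assoc, ← hr 0,
        ← hr 1, ← hr 2]
      exact hF
    rcases mul_eq_zero.1 h1 with h3 | h3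
    · exact (map_eq_zero_iff _ PowerSeries.C_injective).1 h3
    · exact absurd h3 hfj
  set M : ℤ := (q ^ 3) ^ 2 * (4 * (H : ℤ) ^ 2 * (2 * nrm G) ^ (2 * n + 3)) with hM
  have hM1 : 1 ≤ M := by
    have hq : 1 ≤ (q ^ 3) ^ 2 := by
      have : 1 ≤ q := by omega
      exact one_le_pow₀ (one_le_pow₀ this)
    have hHp : 1 ≤ (H : ℤ) := by
      have h1 : 1 ≤ nrm (B j) := nrm_pos (fun h => hj (by rw [h]; exact dvd_zero _))
      exact_mod_cast h1.trans (hH j)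
    have hGp : 1 ≤ (nrm G : ℤ) := by exact_mod_cast nrm_pos hG.ne_zero
    have h2 : 1 ≤ (2 * (nrm G : ℤ)) ^ (2 * n + 3) := one_le_pow₀ (by omega)
    have h3 : 1 ≤ 4 * (H : ℤ) ^ 2 := by nlinarith
    have h4 : 1 ≤ 4 * (H : ℤ) ^ 2 * (2 * (nrm G : ℤ)) ^ (2 * n + 3) :=
      one_le_mul_of_one_le_of_one_le h3 h2
    exact one_le_mul_of_one_le_of_one_le hq h4
  have key : ∀ i, (r i).num ^ 2 ≤ M ∧ ((r i).den : ℤ) ^ 2 ≤ M := by
    intro i
    by_cases hri : r i = 0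
    · rw [hri]
      simpa using ⟨by omega, hM1⟩
    have hx : (r i).num ≠ 0 := Rat.num_ne_zero.2 hri
    have hy : ((r i).den : ℤ) ≠ 0 := by exact_mod_cast (r i).den_ne_zero
    have hxy : IsCoprime (r i).num ((r i).den : ℤ) := by
      rw [Int.isCoprime_iff_gcd_eq_one]
      exact (r i).reduced
    have hC : PowerSeries.C (r i) * (((r i).den : ℤ) : PowerSeries ℚ) =
        (((r i).num : ℤ) : PowerSeries ℚ) := by
      rw [← map_intCast (PowerSeries.C (R := ℚ)) ((r i).den : ℤ),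
        ← map_intCast (PowerSeries.C (R := ℚ)) (r i).num, ← map_mul]
      congr 1
      have := Rat.mul_den_eq_num (r i)
      exact_mod_cast this
    have e1 := hr i
    rw [ff_eq, ff_eq] at e1
    have e2 := rel hUV i
    have e3 := rel hUV j
    refine core hG hd hCHT (S1 := nu i * de j * B i ^ 2) (S2 := nu j * de i * B j ^ 2)
      (deg_prod (deg_nu i) (deg_de j) (hn i)) (deg_prod (deg_nu j) (deg_de i) (hn j)) hxy hx hy
      (A := al p q i * be p q j) (A' := al p q j * be p q i)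
      (mul_ne_zero (al_ne hp hpq i) (be_ne hpq j)) (mul_ne_zero (al_ne hp hpq j) (be_ne hpq i))
      ?_ ?_ (nrm_prod (nrm_nu i) (nrm_de j) (hH i)) (nrm_prod (nrm_nu j) (nrm_de i) (hH j)) ?_ ?_
    · rw [abs_mul, pow_succ]
      exact mul_le_mul (al_le hp hpq i) (be_le hp hpq j) (abs_nonneg _) (sq_nonneg _)
    · rw [abs_mul, pow_succ]
      exact mul_le_mul (al_le hp hpq j) (be_le hp hpq i) (abs_nonneg _) (sq_nonneg _)
    · intro h
      rcases hG.prime.dvd_or_dvd h with h1 | h1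
      · rcases hG.prime.dvd_or_dvd h1 with h2 | h2
        · exact not_dvd_of_ev hev (ev_nu hpq j) h2
        · exact not_dvd_of_ev hev (ev_de hp hpq i) h2
      · exact hj (hG.prime.dvd_of_dvd_pow h1)
    · refine hKer G p q Ψ hBr hG hd hGY hp _ ?_
      simp only [map_sub, map_mul, map_pow, map_intCast, Int.cast_mul, Int.cast_pow]
      rw [← hC]
      linear_combination
        (-(((r i).den : ℤ) : PowerSeries ℚ) ^ 2 * Ψ (B i) ^ 2 * Ψ (de j) *
          (be p q j : PowerSeries ℚ)) * e2 +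
        ((((r i).den : ℤ) : PowerSeries ℚ) ^ 2 * PowerSeries.C (r i) ^ 2 * Ψ (B j) ^ 2 *
          Ψ (de i) * (be p q i : PowerSeries ℚ)) * e3 +
        ((((r i).den : ℤ) : PowerSeries ℚ) ^ 2 * Ψ (de i) * (be p q i : PowerSeries ℚ) *
          Ψ (de j) * (be p q j : PowerSeries ℚ) * (ds uh vh i * Ψ (B i) +
            PowerSeries.C (r i) * (ds uh vh j * Ψ (B j)))) * e1
  have hxj : (r j).num = 1 := by rw [hrj]; rfl
  have hyj : ((r j).den : ℤ) = 1 := by rw [hrj]; rfl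
  have hden : ∀ i, ((r i).den : ℤ) ≠ 0 := fun i => by exact_mod_cast (r i).den_ne_zero
  have hint : (r 0).num * (r 1).den * (r 2).den + ((r 0).den * (r 1).num * (r 2).den) * U +
      ((r 0).den * (r 1).den * (r 2).num) * V = 0 := by
    have h0 := Rat.mul_den_eq_num (r 0)
    have h1 := Rat.mul_den_eq_num (r 1)
    have h2 := Rat.mul_den_eq_num (r 2)
    have h3 : (((r 0).num * (r 1).den * (r 2).den + ((r 0).den * (r 1).num * (r 2).den) * U +
      ((r 0).den * (r 1).den * (r 2).num) * V : ℤ) : ℚ) = 0 := by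
      push_cast
      rw [← h0, ← h1, ← h2]
      linear_combination ((r 0).den * (r 1).den * (r 2).den : ℚ) * hsum
    exact_mod_cast h3
  have hb0 : ((r 0).num * (r 1).den * (r 2).den) ^ 2 ≤ M ^ 2 := by
    refine three ?_
    fin_cases j
    · exact Or.inl ⟨by simp at hxj; rw [hxj]; rfl, (key 1).2, (key 2).2⟩
    · exact Or.inr (Or.inl ⟨by simp at hyj; rw [hyj]; rfl, (key 0).1, (key 2).2⟩)
    · exact Or.inr (Or.inr ⟨by simp at hyj; rw [hyj]; rfl, (key 0).1, (key 1).2⟩)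
  have hb2 : (((r 0).den : ℤ) * (r 1).den * (r 2).num) ^ 2 ≤ M ^ 2 := by
    refine three ?_
    fin_cases j
    · exact Or.inl ⟨by simp at hyj; rw [hyj]; rfl, (key 1).2, (key 2).1⟩
    · exact Or.inr (Or.inl ⟨by simp at hyj; rw [hyj]; rfl, (key 0).2, (key 2).1⟩)
    · exact Or.inr (Or.inr ⟨by simp at hxj; rw [hxj]; rfl, (key 0).2, (key 1).2⟩)
  obtain ⟨z0, z1, z2⟩ := hNUV p q U V _ _ _ hp hpq hUVeq hint (by
    refine lt_of_le_of_lt ?_ hsize
    have hq0 : 0 ≤ q := by omega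
    have c1 : (p - 1) * q ≤ q ^ 2 := by nlinarith
    have c2 : q - p ≤ q ^ 2 := by nlinarith
    have c3 : 0 ≤ (p - 1) * q := mul_nonneg (by omega) hq0
    have c4 : 0 ≤ q - p := by omega
    calc (p - 1) * q * ((r 0).num * (r 1).den * (r 2).den) ^ 2 +
          (q - p) * (((r 0).den : ℤ) * (r 1).den * (r 2).num) ^ 2
        ≤ q ^ 2 * M ^ 2 + q ^ 2 * M ^ 2 :=
          add_le_add (mul_le_mul c1 hb0 (sq_nonneg _) (sq_nonneg _))
            (mul_le_mul c2 hb2 (sq_nonneg _) (sq_nonneg _))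
      _ = 2 * q ^ 14 * (4 * (H : ℤ) ^ 2 * (2 * nrm G) ^ (2 * n + 3)) ^ 2 := by
          rw [hM]; ring)
  have d0 := hden 0
  have d1 := hden 1
  have d2 := hden 2
  fin_cases j
  · have : (r 0).num = 1 := hxj
    rw [this, one_mul] at z0
    exact mul_ne_zero d1 d2 z0
  · have : (r 1).num = 1 := hxj
    rw [this, mul_one] at z1
    exact mul_ne_zero d0 d2 z1
  · have : (r 2).num = 1 := hxj
    rw [this, mul_one] at z2
    exact mul_ne_zero d0 d1 z2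

end Pool.Agent.Helper27.OV.FPR
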