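import Pool.Agent.Helper7.OV.Goals2

/-!
# Project OV, packet SIEG (Siegel lemma)
-/

set_option autoImplicit false

namespace Pool.Agent.Helper27.OV.SIEG

open Pool.Agent.Helper7.OV
open Finset Matrix

attribute [local instance] Matrix.seminormedAddCommGroup

theorem t : S_SIEG := by
  intro ι κ _ _ _ a B e hB ha hcard hexp
  rcases Nat.eq_zero_or_pos (Fintype.card κ) with h0 | hpos
  · have hκ : IsEmpty κ := Fintype.card_eq_zero_iff.1 h0
    refine ⟨fun _ => 1, ?_, fun k => (hκ.false k).elim, fun i => ?_⟩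
    · intro h
      obtain ⟨i⟩ := (inferInstance : Nonempty ι)
      exact one_ne_zero (congrFun h i)
    · have h1 : (1 : ℤ) ≤ (Fintype.card ι : ℤ) * B := by
        have h2 : 1 ≤ Fintype.card ι := Fintype.card_pos
        have h3 : 1 ≤ Fintype.card ι * B := Nat.one_le_iff_ne_zero.2 (by positivity)
        exact_mod_cast h3
      rw [abs_one]
      exact one_le_pow₀ h1
  · obtain ⟨t, ht0, ht1, ht2⟩ :=
      Int.Matrix.exists_ne_zero_int_vec_norm_le (Matrix.of a) hcard hpos
    refine ⟨t, ht0, fun k => ?_, fun i => ?_⟩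
    · have := congrFun ht1 k
      simpa [Matrix.mulVec, dotProduct] using this
    · have hn1 : (1 : ℝ) ≤ (Fintype.card ι : ℝ) := by
        have : 1 ≤ Fintype.card ι := Fintype.card_pos
        exact_mod_cast this
      have hB1 : (1 : ℝ) ≤ (B : ℝ) := by exact_mod_cast hB
      have hnorm : max 1 ‖Matrix.of a‖ ≤ (B : ℝ) := by
        refine max_le hB1 ?_
        refine (Matrix.norm_le_iff (by positivity)).2 fun k i => ?_
        rw [Matrix.of_apply, Int.norm_eq_abs]
        exact_mod_cast ha k i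
      have hmax1 : (1 : ℝ) ≤ max 1 ‖Matrix.of a‖ := le_max_left _ _
      have hbase : (Fintype.card ι : ℝ) * max 1 ‖Matrix.of a‖ ≤ (Fintype.card ι : ℝ) * B := by
        gcongr
      have hbase1 : (1 : ℝ) ≤ (Fintype.card ι : ℝ) * max 1 ‖Matrix.of a‖ := by
        nlinarith
      have hex : ((Fintype.card κ : ℝ) / ((Fintype.card ι : ℝ) - Fintype.card κ)) ≤ (e : ℝ) := by
        have h1 : (0 : ℝ) < (Fintype.card ι : ℝ) - Fintype.card κ := by
          have : (Fintype.card κ : ℝ) < Fintype.card ι := by exact_mod_cast hcard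
          linarith
        rw [div_le_iff₀ h1]
        have h2 : ((e : ℝ) + 1) * Fintype.card κ ≤ e * Fintype.card ι := by exact_mod_cast hexp
        linarith
      have h3 : ‖t‖ ≤ ((Fintype.card ι : ℝ) * B) ^ e := by
        calc ‖t‖ ≤ ((Fintype.card ι : ℝ) * max 1 ‖Matrix.of a‖) ^
              ((Fintype.card κ : ℝ) / ((Fintype.card ι : ℝ) - Fintype.card κ)) := ht2
          _ ≤ ((Fintype.card ι : ℝ) * max 1 ‖Matrix.of a‖) ^ (e : ℝ) :=
              Real.rpow_le_rpow_of_exponent_le hbase1 hex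
          _ = ((Fintype.card ι : ℝ) * max 1 ‖Matrix.of a‖) ^ e := Real.rpow_natCast _ _
          _ ≤ ((Fintype.card ι : ℝ) * B) ^ e := by
              gcongr
      have h4 : ‖t i‖ ≤ ‖t‖ := norm_le_pi_norm t i
      have h5 : ((|t i| : ℤ) : ℝ) ≤ ((Fintype.card ι : ℝ) * B) ^ e := by
        rw [Int.cast_abs, ← Int.norm_eq_abs]
        exact h4.trans h3
      exact_mod_cast h5

end Pool.Agent.Helper27.OV.SIEG
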